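import Pool.Agent.helper17.SG.SpecR

/-!
# Project sg:, module R10: the density is bounded below (cocompact case)
-/

set_option autoImplicit false

open MeasureTheory Set Metric Filter Topology
open scoped ENNReal NNReal ComplexConjugate

namespace Pool.Agent.SG

theorem R10_half (m : Measure ℂ) [IsProbabilityMeasure m] (E : Set ℂ) (hE : MeasurableSet E)
    (h : m Eᶜ ≤ 1 / 2) : 1 / 2 ≤ m E := by
  have h1 : m E + m Eᶜ = 1 := by rw [measure_add_measure_compl hE, measure_univ]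
  by_contra hcon
  push Not at hcon
  have h2 : m E + m Eᶜ < 1 / 2 + 1 / 2 := by
    refine ENNReal.add_lt_add_of_lt_of_le ?_ hcon h
    exact ne_top_of_le_ne_top (by simp) h
  rw [h1, ENNReal.add_halves] at h2
  exact lt_irrefl _ h2

theorem R10_ball {Γ : Type} [Group Γ] (hM01 : M01_stmt) (hM02 : M02_stmt) (hM05 : M05_stmt)
    (A : DiscRep Γ) (W : Walk Γ) (ν : Measure ℂ) (hS : Stat A W ν) (ρ c : ℝ) (hρ : 0 < ρ)
    (hν : ∀ z : ℂ, ν (closedBall z ρ) ≤ 1 / 2)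
    (hc : ∀ x, ENNReal.ofReal (c * A.kk x) ≤ W.hit 1 x) (w : Γ) (ζ : ℂ) (r : ℝ)
    (hsub : closedBall (A.pt w) (ρ⁻¹ * A.kk w) ⊆ closedBall ζ r) :
    ENNReal.ofReal (c * A.kk w) * (1 / 2) ≤ ν (closedBall ζ r) := by
  obtain ⟨hp, -, h1, -⟩ := hM01 Γ A W ν hS
  haveI := hp w
  have h2 : nux A ν w (closedBall (A.pt w) (ρ⁻¹ * A.kk w))ᶜ ≤ 1 / 2 := by
    refine hM05 Γ A W ν hS ρ⁻¹ (1 / 2) (by positivity) ?_ w
    intro z
    have : (1 : ℝ) / ρ⁻¹ = ρ := by simp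
    rw [this]
    exact hν z
  have h3 := R10_half (nux A ν w) _ isClosed_closedBall.measurableSet h2
  have h4 := hM02 Γ A W ν hS 1 w (closedBall (A.pt w) (ρ⁻¹ * A.kk w))
    isClosed_closedBall.measurableSet
  rw [h1] at h4
  calc ENNReal.ofReal (c * A.kk w) * (1 / 2)
      ≤ W.hit 1 w * nux A ν w (closedBall (A.pt w) (ρ⁻¹ * A.kk w)) := mul_le_mul' (hc w) h3
    _ ≤ ν (closedBall (A.pt w) (ρ⁻¹ * A.kk w)) := h4
    _ ≤ ν (closedBall ζ r) := measure_mono hsub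

theorem R10 (hR09 : R09_stmt) (hB05 : B05_stmt) (hB11 : B11_stmt) (hB12 : B12_stmt)
    (hB17 : B17_stmt) (hM01 : M01_stmt) (hM02 : M02_stmt) (hM03 : M03_stmt) (hM04 : M04_stmt)
    (hM05 : M05_stmt) (hM12 : M12_stmt) : R10_stmt := by
  intro Γ _ A W ν hStd hac
  have hS : Stat A W ν := hStd.toStat
  have hne : A.NonEl := hB12 Γ A hStd.disc hStd.coc
  have hD : StdD A W ν := { toStat := hS, disc := hStd.disc, nonel := hne }
  haveI : IsProbabilityMeasure ν := hS.prob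
  obtain ⟨hlp, hlc, hlb, hlz, -⟩ := hB05
  haveI := hlp
  obtain ⟨ρ, hρ, hρν⟩ := hM04 ν hS.supp (hM03 Γ A W ν hS hne) (1 / 2) (by simp)
  obtain ⟨C, hC, hC'⟩ := hB11 Γ A hStd.coc
  obtain ⟨c, hc, hc'⟩ := hR09 Γ A W ν hD hac
  have hC0 : 0 < C := by linarith
  have hρi : 0 < ρ⁻¹ := by positivity
  refine ⟨max 1 (2 * C ^ 2 * (1 + ρ⁻¹) / c), le_max_left _ _, ?_⟩
  refine hB17 ν lam (ENNReal.ofReal (max 1 (2 * C ^ 2 * (1 + ρ⁻¹) / c))) ENNReal.ofReal_ne_top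
    (hM12 Γ A W ν hD hac) ?_
  have hae : ∀ᵐ ζ ∂ν, ζ ∈ circ := by
    rw [ae_iff]
    exact hS.supp
  filter_upwards [hae] with ζ hζ δ hδ
  have hζ1 : ‖ζ‖ = 1 := by simpa [circ] using hζ
  refine ⟨min (δ / 2) 1, by positivity, by
    have := min_le_left (δ / 2) (1 : ℝ)
    linarith, ?_⟩
  set r : ℝ := min (δ / 2) 1 with hr
  have hr0 : 0 < r := by positivity
  have hr1 : r ≤ 1 := min_le_right _ _
  set t : ℝ := r / (C * (1 + ρ⁻¹)) with ht
  have ht0 : 0 < t := by positivity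
  have hden : 1 ≤ C * (1 + ρ⁻¹) := by nlinarith
  have ht1 : t ≤ 1 := by
    rw [ht, div_le_one (by positivity)]
    linarith
  have htr : C * (1 + ρ⁻¹) * t = r := by
    rw [ht]
    field_simp
  obtain ⟨w, hw1, hw2, hw3⟩ := hC' ζ t hζ1 ht0 ht1
  have hsub : closedBall (A.pt w) (ρ⁻¹ * A.kk w) ⊆ closedBall ζ r := by
    refine closedBall_subset_closedBall' ?_
    rw [dist_comm, dist_eq_norm]
    have h5 : ρ⁻¹ * A.kk w ≤ ρ⁻¹ * (C * t) := mul_le_mul_of_nonneg_left hw2 hρi.le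
    calc ρ⁻¹ * A.kk w + ‖ζ - A.pt w‖ ≤ ρ⁻¹ * (C * t) + C * t := add_le_add h5 hw3
      _ = r := by rw [← htr]; ring
  have h6 := R10_ball hM01 hM02 hM05 A W ν hS ρ c hρ hρν hc' w ζ r hsub
  have h7 : lam (closedBall ζ r) ≤ ENNReal.ofReal r := hlz ζ r hr0.le
  refine h7.trans ?_
  have h8 : ENNReal.ofReal (c * (t / C)) * (1 / 2) ≤ ν (closedBall ζ r) := by
    refine le_trans ?_ h6
    refine mul_le_mul' (ENNReal.ofReal_le_ofReal ?_) le_rfl
    exact mul_le_mul_of_nonneg_left hw1 hc.le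
  refine le_trans ?_ (mul_le_mul' (ENNReal.ofReal_le_ofReal (le_max_right _ _)) h8)
  have h9 : (1 / 2 : ℝ≥0∞) = ENNReal.ofReal (1 / 2) := by
    rw [ENNReal.ofReal_div_of_pos (by norm_num)]
    simp
  rw [h9, ← ENNReal.ofReal_mul (by positivity), ← ENNReal.ofReal_mul (by positivity)]
  refine ENNReal.ofReal_le_ofReal (le_of_eq ?_)
  rw [← htr]
  field_simp

end Pool.Agent.SG
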